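import Mathlib
import Pool.Agent.Q73.AD.Fin
import Pool.Agent.Q73.AD.TR1
import Pool.Agent.Q63.ISE.Man

/-!
# Bounded doubling index on half of the small discs, all closed surfaces (MP_fc1c69_an, Q1)

For every closed connected Riemannian surface and all `A, C₁` there is `K` such that for every
eigenfunction and every admissible covering at least half of the discs have doubling index at most `K`.
It follows from the bound for the average doubling index (MP_c7f82c_an.BoundedAverage, see there for the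
proof).
The surface is a Riemannian manifold of dimension two in the sense of Mathlib; it has isothermal charts by
`Pool.Agent.Q63.ISE.atlas`.
-/

set_option autoImplicit false
open MeasureTheory Filter Topology Complex Bundle
open scoped ContDiff Manifold

namespace Pool.Agent.Results.MP_fc1c69_an.HalfOfTheDiscs

noncomputable section

universe u v

/-- the Laplacian of the plane `ℂ`: `∂_x² + ∂_y²` -/
def laplacian (f : ℂ → ℝ) (z : ℂ) : ℝ :=
  fderiv ℝ (fun w => fderiv ℝ f w 1) z 1 + fderiv ℝ (fun w => fderiv ℝ f w I) z I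

/-- The lengths of the piecewise `C¹` curves from `x` to `y` on a surface with charts
`φ i : U i → M` and the metric `ρ i |dz|²` in the `i`-th chart: the `k`-th piece of the curve is
`φ (i k) ∘ γ k` on `[0, 1]`, it goes from `P k` to `P (k + 1)`. -/
def curveLengths {M : Type u} {ι : Type v} (U : ι → Set ℂ) (φ : ι → ℂ → M) (ρ : ι → ℂ → ℝ)
    (x y : M) : Set ℝ :=
  {l | ∃ (n : ℕ) (i : ℕ → ι) (γ : ℕ → ℝ → ℂ) (P : ℕ → M), P 0 = x ∧ P n = y ∧
    (∀ k < n, ContDiff ℝ 1 (γ k) ∧ (∀ t ∈ Set.Icc (0 : ℝ) 1, γ k t ∈ U (i k)) ∧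
      φ (i k) (γ k 0) = P k ∧ φ (i k) (γ k 1) = P (k + 1)) ∧
    l = ∑ k ∈ Finset.range n, ∫ t in (0 : ℝ)..1, Real.sqrt (ρ (i k) (γ k t)) * ‖deriv (γ k) t‖}

/-- A Riemannian surface given by isothermal charts: the charts `φ i`, defined on the open subsets `U i`
of the plane, are homeomorphisms onto open sets that cover `M`; in the `i`-th chart the metric is
`ρ i |dz|²` with `ρ i > 0` of class `C¹`; the transition maps are isometries for these metrics; the
distance of `M` is the geodesic distance, the infimum of the lengths of curves. -/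
structure RiemannianSurface {M : Type u} {ι : Type v} [MetricSpace M] (U : ι → Set ℂ)
    (φ : ι → ℂ → M) (ρ : ι → ℂ → ℝ) : Prop where
  isOpen_domain : ∀ i, IsOpen (U i)
  injective_chart : ∀ i, Set.InjOn (φ i) (U i)
  continuous_chart : ∀ i, ContinuousOn (φ i) (U i)
  open_chart : ∀ i (S : Set ℂ), IsOpen S → S ⊆ U i → IsOpen (φ i '' S)
  cover : ∀ x : M, ∃ i, x ∈ φ i '' U i
  density_pos : ∀ i, ∀ z ∈ U i, 0 < ρ i z
  density_smooth : ∀ i, ContDiffOn ℝ 1 (ρ i) (U i)
  transition : ∀ i j, ∀ z ∈ U i, ∀ w ∈ U j, φ i z = φ j w → ∃ τ : ℂ → ℂ, τ z = w ∧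
    (∀ᶠ z' in 𝓝 z, τ z' ∈ U j ∧ φ j (τ z') = φ i z') ∧ DifferentiableAt ℝ τ z ∧
    ∀ v : ℂ, ρ j w * ‖fderiv ℝ τ z v‖ ^ 2 = ρ i z * ‖v‖ ^ 2
  geodesic : ∀ x y : M, dist x y = sInf (curveLengths U φ ρ x y)

/-- `f` is a real smooth eigenfunction on `M`, `Δ_g f + lam f = 0`, `f ≢ 0`: in the chart `φ i` the
Laplace-Beltrami operator is `Δ / ρ i` -/
structure IsEigenfunction {M : Type u} {ι : Type v} (U : ι → Set ℂ) (φ : ι → ℂ → M)
    (ρ : ι → ℂ → ℝ) (lam : ℝ) (f : M → ℝ) : Prop where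
  smooth : ∀ i, ContDiffOn ℝ ∞ (fun z => f (φ i z)) (U i)
  eq : ∀ i, ∀ z ∈ U i, laplacian (fun z => f (φ i z)) z + lam * ρ i z * f (φ i z) = 0
  ne : ∃ x, f x ≠ 0

/-! ### Riemannian manifolds of dimension two in the sense of Mathlib, modelled on a real normed space `E`
with a basis `b` of two vectors (for instance the Euclidean plane) -/

section

variable {E : Type v} [NormedAddCommGroup E] [NormedSpace ℝ E] (b : Module.Basis (Fin 2) ℝ E)
  {M : Type u} [TopologicalSpace M] [ChartedSpace E M]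

/-- the coordinate vector `∂_i` of the chart at `x₀`, at the point with coordinates `z` -/
def coordVec (x₀ : M) (z : E) (i : Fin 2) :
    TangentSpace 𝓘(ℝ, E) ((extChartAt 𝓘(ℝ, E) x₀).symm z) :=
  mfderiv 𝓘(ℝ, E) 𝓘(ℝ, E) (extChartAt 𝓘(ℝ, E) x₀).symm z (b i)

/-- the matrix `g_ij = ⟨∂_i, ∂_j⟩` of the metric in the chart at `x₀` -/
def metricMatrix [RiemannianBundle (fun x : M => TangentSpace 𝓘(ℝ, E) x)] (x₀ : M) (z : E) :
    Matrix (Fin 2) (Fin 2) ℝ :=
  Matrix.of fun i j => inner ℝ (coordVec b x₀ z i) (coordVec b x₀ z j)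

/-- the Laplace-Beltrami operator in coordinates: `(det g)^(-1/2) ∑_i ∂_i ((det g)^(1/2) ∑_j g^ij ∂_j h)` -/
def laplaceBeltrami (g : E → Matrix (Fin 2) (Fin 2) ℝ) (h : E → ℝ) (z : E) : ℝ :=
  (√((g z).det))⁻¹ * ∑ i, fderiv ℝ (fun y => √((g y).det) *
    ∑ j, (g y)⁻¹ i j * fderiv ℝ h y (b j)) z (b i)

/-- `f` is a real smooth eigenfunction on the Riemannian manifold `M`: `Δ_g f + lam f = 0`, `f ≢ 0` -/
structure IsEigenfunctionOn [RiemannianBundle (fun x : M => TangentSpace 𝓘(ℝ, E) x)] (lam : ℝ)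
    (f : M → ℝ) : Prop where
  smooth : ContMDiff 𝓘(ℝ, E) 𝓘(ℝ, ℝ) ∞ f
  eq : ∀ x₀ : M, ∀ z ∈ (extChartAt 𝓘(ℝ, E) x₀).target,
    laplaceBeltrami b (metricMatrix b x₀) (fun y => f ((extChartAt 𝓘(ℝ, E) x₀).symm y)) z
      + lam * f ((extChartAt 𝓘(ℝ, E) x₀).symm z) = 0
  ne : ∃ x, f x ≠ 0

end

/-- the doubling index of `f` on the geodesic disc with centre `x` and radius `r` -/
def doubling {M : Type u} [MetricSpace M] (f : M → ℝ) (x : M) (r : ℝ) : ℝ :=
  Real.logb 2 (sSup ((fun y => |f y|) '' Metric.ball x (2 * r)) /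
    sSup ((fun y => |f y|) '' Metric.ball x r))

/-- the geodesic discs of radius `A / √lam` with centres `x i` are an admissible covering for `f` with
constants `A`, `C₁` -/
structure Admissible {M : Type u} [MetricSpace M] (f : M → ℝ) (lam A C₁ : ℝ) {κ : Type}
    [Fintype κ] (x : κ → M) : Prop where
  cover : ∀ y : M, ∃ i, y ∈ Metric.ball (x i) (A / Real.sqrt lam)
  mult : ∀ y : M, ({i | y ∈ Metric.ball (x i) (A / Real.sqrt lam)}.ncard : ℝ) ≤ C₁
  zero : ∀ i, f (x i) = 0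

/-- At least half of the discs have bounded doubling index, for surfaces given by isothermal charts. -/
theorem isothermal : ∀ (M : Type u) (ι : Type v) [MetricSpace M] [CompactSpace M] [ConnectedSpace M]
    (U : ι → Set ℂ) (φ : ι → ℂ → M) (ρ : ι → ℂ → ℝ), RiemannianSurface U φ ρ →
    ∀ A C₁ : ℝ, 0 < A → 0 < C₁ → ∃ K : ℝ, 0 < K ∧
      ∀ (lam : ℝ) (f : M → ℝ), 0 < lam → IsEigenfunction U φ ρ lam f →
      ∀ (κ : Type) [Fintype κ] (x : κ → M), Admissible f lam A C₁ x →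
        (Fintype.card κ : ℝ) / 2 ≤ ({i | doubling f (x i) (A / Real.sqrt lam) ≤ K}.ncard : ℝ) := by
  intro M ι _ _ _ U φ ρ h A C₁ hA hC₁
  have hR : Pool.Agent.Q73.AD.Riem U φ ρ := ⟨h.isOpen_domain, h.injective_chart, h.continuous_chart, h.open_chart,
    h.cover, h.density_pos, h.density_smooth, h.transition, h.geodesic⟩
  have hatl := Pool.Agent.Q73.AD.tr1 M ι U φ ρ hR
  obtain ⟨c, hc, hcard⟩ := Pool.Agent.Q73.AD.tz7.{u, v} M ι U φ ρ hatl A hA
  obtain ⟨K, hK, hK2⟩ := Pool.Agent.Q73.AD.fin5.{u, v} M ι U φ ρ hatl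
    (fun i z hz => (h.density_pos i z hz).le) A C₁ c⁻¹ hA hC₁ (inv_pos.2 hc)
  refine ⟨2 * K, by positivity, fun lam f hlam hf κ _ x hx => ?_⟩
  have hn := hcard lam κ x hlam hx.cover
  have hcpos : (0 : ℝ) < Fintype.card κ := lt_of_lt_of_le (mul_pos hc hlam) hn
  have hav := hK2 lam f κ x hlam (fun i => ⟨hf.smooth i, hf.eq i⟩) hf.ne hx.mult
    (by rw [inv_inv]; exact hn)
  have hav' : ∑ i, doubling f (x i) (A / Real.sqrt lam) ≤ K * Fintype.card κ := by
    rwa [div_le_iff₀ hcpos] at hav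
  have hnn : ∀ i, 0 ≤ doubling f (x i) (A / Real.sqrt lam) := fun i =>
    Pool.Agent.Q73.AD.fin_dbl_nonneg.{u, v} M ι U φ ρ hatl lam f hlam
      (fun i => ⟨hf.smooth i, hf.eq i⟩) hf.ne (x i) _ (by positivity)
  have key : ∀ s : ℝ, 0 < s → ({i | s * (2 * K) / 2 ≤ doubling f (x i) (A / Real.sqrt lam)}.ncard : ℝ) ≤
      Fintype.card κ / s := by
    classical
    intro s hs
    have e1 : s * (2 * K) / 2 = s * K := by ring
    rw [e1]
    set S : Finset κ := Finset.univ.filter (fun i => s * K ≤ doubling f (x i) (A / Real.sqrt lam)) with hS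
    have e2 : {i | s * K ≤ doubling f (x i) (A / Real.sqrt lam)} = (S : Set κ) := by
      ext i; simp [hS]
    rw [e2, Set.ncard_coe_finset]
    have e3 : (S.card : ℝ) * (s * K) ≤ K * Fintype.card κ := by
      calc (S.card : ℝ) * (s * K) = ∑ i ∈ S, s * K := by simp
        _ ≤ ∑ i ∈ S, doubling f (x i) (A / Real.sqrt lam) :=
            Finset.sum_le_sum fun i hi => (Finset.mem_filter.1 hi).2
        _ ≤ ∑ i, doubling f (x i) (A / Real.sqrt lam) :=
            Finset.sum_le_sum_of_subset_of_nonneg (Finset.subset_univ _) fun i _ _ => hnn i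
        _ ≤ _ := hav'
    rw [le_div_iff₀ hs]
    nlinarith
  classical
  have h2 := key 2 two_pos
  have e1 : (2 : ℝ) * (2 * K) / 2 = 2 * K := by ring
  rw [e1] at h2
  set S1 : Set κ := {i | 2 * K ≤ doubling f (x i) (A / Real.sqrt lam)} with hS1
  set S2 : Set κ := {i | doubling f (x i) (A / Real.sqrt lam) ≤ 2 * K} with hS2
  have hU : (Set.univ : Set κ) ⊆ S1 ∪ S2 := fun i _ => le_total (2 * K) (doubling f (x i) (A / Real.sqrt lam))
  have h3 : Fintype.card κ ≤ S1.ncard + S2.ncard := by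
    calc Fintype.card κ = (Set.univ : Set κ).ncard := by
          rw [Set.ncard_univ, Nat.card_eq_fintype_card]
      _ ≤ (S1 ∪ S2).ncard := Set.ncard_le_ncard hU (Set.toFinite _)
      _ ≤ _ := Set.ncard_union_le _ _
  have h4 : (Fintype.card κ : ℝ) ≤ S1.ncard + S2.ncard := by exact_mod_cast h3
  linarith

/-- **At least half of the discs have bounded doubling index**, on every closed connected Riemannian
surface (smooth Riemannian manifold of dimension two, in the sense of Mathlib, with its geodesic distance). -/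
theorem result : ∀ (E : Type v) [NormedAddCommGroup E] [NormedSpace ℝ E] (b : Module.Basis (Fin 2) ℝ E)
    (M : Type u) [MetricSpace M] [ChartedSpace E M] [IsManifold 𝓘(ℝ, E) ∞ M]
    [RiemannianBundle (fun x : M => TangentSpace 𝓘(ℝ, E) x)]
    [IsContMDiffRiemannianBundle 𝓘(ℝ, E) ∞ E (fun x : M => TangentSpace 𝓘(ℝ, E) x)]
    [IsRiemannianManifold 𝓘(ℝ, E) M] [CompactSpace M] [ConnectedSpace M],
    ∀ A C₁ : ℝ, 0 < A → 0 < C₁ → ∃ K : ℝ, 0 < K ∧
      ∀ (lam : ℝ) (f : M → ℝ), 0 < lam → IsEigenfunctionOn b lam f →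
      ∀ (κ : Type) [Fintype κ] (x : κ → M), Admissible f lam A C₁ x →
        (Fintype.card κ : ℝ) / 2 ≤ ({i | doubling f (x i) (A / Real.sqrt lam) ≤ K}.ncard : ℝ) := by
  intro E _ _ b M _ _ _ _ _ _ _ _ A C₁ hA hC₁
  obtain ⟨U, φ, ρ, hR, -, hE⟩ := Pool.Agent.Q63.ISE.atlas b M
  obtain ⟨K, hK, hK2⟩ := isothermal.{u, u} M M U φ ρ ⟨hR.dom, hR.inj, hR.cont,
    hR.opn, hR.cover, hR.pos, hR.dens, hR.trans, hR.geod⟩ A C₁ hA hC₁
  refine ⟨K, hK, fun lam f hlam hf κ _ x hx => hK2 lam f hlam ?_ κ x hx⟩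
  have h := hE lam f ⟨hf.smooth, hf.eq⟩
  exact ⟨fun i => (h i).1, fun i => (h i).2, hf.ne⟩

end

end Pool.Agent.Results.MP_fc1c69_an.HalfOfTheDiscs
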